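import Mathlib
import Pool.Agent.R439.S4G

set_option autoImplicit false

namespace Pool.Agent.Results.MP_8d9088_nt.AllPrimePowers

open Finset Pool.Agent.R439

/-- The sum `S(N)` of the problem. -/
def S (N : ℕ) : ℚ :=
  ∑ k ∈ range (N + 1), (4 * (k : ℚ) + 1) * (rf (1 / 2) k / (k.factorial : ℚ)) ^ 4

/-- **Answer to Q1**: for every prime `p > 3` and every `r ≥ 1`,
`S((p^r-1)/2) ≡ p^r + (7/6) B_{p-3} p^(r+3) (mod p^(r+4))`. -/
theorem result : ∀ p r : ℕ, p.Prime → 3 < p → 0 < r →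
    ∃ t : ℚ, S ((p ^ r - 1) / 2) - ((p : ℚ) ^ r + 7 / 6 * bernoulli (p - 3) * (p : ℚ) ^ (r + 3)) =
      (p : ℚ) ^ (r + 4) * t ∧ ¬ p ∣ t.den := by
  intro p r hp h3 hr
  have : Fact p.Prime := ⟨hp⟩
  exact PL.S4.exists_of_I (PL.S4.S_final h3 hr)

end Pool.Agent.Results.MP_8d9088_nt.AllPrimePowers
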